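import Pool.Agent.H90.DA.Final
import Pool.Agent.H53.DA.Fin

set_option autoImplicit false
open Real

namespace Pool.Agent.Results.MP_64e98b_an.AtMostTwoSignChanges

/-- The solution of the periodic De Gregorio model with the initial datum `ω₀` is globally regular:
for every `T > 0` there are smooth functions `ω`, `u` of `(t,x)`, `2π`-periodic in `x`, with
`ω(0,·) = ω₀`, `∂ₓu = Hω` (Fourier coefficients of the Hilbert transform) and
`∂ₜω + u ∂ₓω = ω ∂ₓu` for `0 ≤ t ≤ T`.  (The same format as in the frozen statement.) -/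
def GloballyRegular (ω₀ : ℝ → ℝ) : Prop :=
  ∀ T : ℝ, 0 < T →
    ∃ ω u : ℝ × ℝ → ℝ,
      ContDiff ℝ ((⊤ : ℕ∞) : WithTop ℕ∞) ω ∧
      ContDiff ℝ ((⊤ : ℕ∞) : WithTop ℕ∞) u ∧
      (∀ t x : ℝ, ω (t, x + 2 * π) = ω (t, x)) ∧
      (∀ t x : ℝ, u (t, x + 2 * π) = u (t, x)) ∧
      (∀ x : ℝ, ω (0, x) = ω₀ x) ∧
      (∀ t ∈ Set.Icc (0 : ℝ) T, ∀ k : ℤ,
        (∫ x in (0 : ℝ)..(2 * π),
            ((deriv (fun y : ℝ => u (t, y)) x : ℝ) : ℂ) *
              Complex.exp (-(k : ℂ) * (x : ℂ) * Complex.I)) =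
          -Complex.I * ((Int.sign k : ℤ) : ℂ) *
            ∫ x in (0 : ℝ)..(2 * π),
              ((ω (t, x) : ℝ) : ℂ) * Complex.exp (-(k : ℂ) * (x : ℂ) * Complex.I)) ∧
      (∀ t ∈ Set.Icc (0 : ℝ) T, ∀ x : ℝ,
        deriv (fun s : ℝ => ω (s, x)) t + u (t, x) * deriv (fun y : ℝ => ω (t, y)) x =
          ω (t, x) * deriv (fun y : ℝ => u (t, y)) x)

/-- Every smooth datum with at most two sign changes per period, of any mean, is globally regular;
more generally, for `n ≥ 1`, every smooth `2π/n`-periodic datum with at most two sign changes in its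
period `2π/n`: `ω₀ ≤ 0` on `[e,c]` and `ω₀ ≥ 0` on `[c, e + 2π/n]`. -/
theorem result (n : ℕ) (hn : 1 ≤ n) (ω₀ : ℝ → ℝ)
    (smooth : ContDiff ℝ ((⊤ : ℕ∞) : WithTop ℕ∞) ω₀)
    (periodic : Function.Periodic ω₀ (2 * π / n))
    (e c : ℝ) (hec : e ≤ c) (hce : c ≤ e + 2 * π / n)
    (neg : ∀ x ∈ Set.Icc e c, ω₀ x ≤ 0)
    (pos : ∀ x ∈ Set.Icc c (e + 2 * π / n), 0 ≤ ω₀ x) :
    GloballyRegular ω₀ :=
  Pool.Agent.H90.DA.twoSignN Pool.Agent.H53.DA.statA n hn ω₀ e c smooth periodic hec hce neg pos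

end Pool.Agent.Results.MP_64e98b_an.AtMostTwoSignChanges
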