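import Pool.Agent.H90.DE.OneSign

set_option autoImplicit false
open Real

namespace Pool.Agent.Results.MP_64e98b_an.OddFourSignChanges

/-- The solution of the periodic De Gregorio model with the initial datum `ω₀` is globally regular:
for every `T > 0` there are smooth functions `ω`, `u` of `(t,x)`, `2π`-periodic in `x`, with
`ω(0,·) = ω₀`, `∂ₓu = Hω` (Fourier coefficients of the Hilbert transform) and
`∂ₜω + u ∂ₓω = ω ∂ₓu` for `0 ≤ t ≤ T`.  (The same format as in the frozen statement.) -/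
def GloballyRegular (ω₀ : ℝ → ℝ) : Prop :=
  ∀ T : ℝ, 0 < T →
    ∃ ω u : ℝ × ℝ → ℝ,
      ContDiff ℝ ((⊤ : ℕ∞) : WithTop ℕ∞) ω ∧
      ContDiff ℝ ((⊤ : ℕ∞) : WithTop ℕ∞) u ∧
      (∀ t x : ℝ, ω (t, x + 2 * π) = ω (t, x)) ∧
      (∀ t x : ℝ, u (t, x + 2 * π) = u (t, x)) ∧
      (∀ x : ℝ, ω (0, x) = ω₀ x) ∧
      (∀ t ∈ Set.Icc (0 : ℝ) T, ∀ k : ℤ,
        (∫ x in (0 : ℝ)..(2 * π),
            ((deriv (fun y : ℝ => u (t, y)) x : ℝ) : ℂ) *
              Complex.exp (-(k : ℂ) * (x : ℂ) * Complex.I)) =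
          -Complex.I * ((Int.sign k : ℤ) : ℂ) *
            ∫ x in (0 : ℝ)..(2 * π),
              ((ω (t, x) : ℝ) : ℂ) * Complex.exp (-(k : ℂ) * (x : ℂ) * Complex.I)) ∧
      (∀ t ∈ Set.Icc (0 : ℝ) T, ∀ x : ℝ,
        deriv (fun s : ℝ => ω (s, x)) t + u (t, x) * deriv (fun y : ℝ => ω (t, y)) x =
          ω (t, x) * deriv (fun y : ℝ => u (t, y)) x)

/-- For `n ≥ 1`, every smooth `2π/n`-periodic datum which is odd about a point `a` and has at most one
sign change in `(a, a+π/n)` (so at most four sign changes per period `2π/n`) is globally regular. -/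
theorem result (n : ℕ) (hn : 1 ≤ n) (ω₀ : ℝ → ℝ)
    (smooth : ContDiff ℝ ((⊤ : ℕ∞) : WithTop ℕ∞) ω₀)
    (periodic : Function.Periodic ω₀ (2 * π / n))
    (a : ℝ) (odd : ∀ x, ω₀ (a - x) = -ω₀ (a + x))
    (p : ℝ) (hp0 : 0 ≤ p) (hp1 : p ≤ π / n)
    (sgn : ((∀ x ∈ Set.Icc a (a + p), 0 ≤ ω₀ x) ∧ ∀ x ∈ Set.Icc (a + p) (a + π / n), ω₀ x ≤ 0) ∨
      ((∀ x ∈ Set.Icc a (a + p), ω₀ x ≤ 0) ∧ ∀ x ∈ Set.Icc (a + p) (a + π / n), 0 ≤ ω₀ x)) :
    GloballyRegular ω₀ := by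
  have hn0 : (0 : ℝ) < n := by exact_mod_cast hn
  have hn1 : (n : ℝ) ≠ 0 := hn0.ne'
  have i1 : ∀ x ∈ Set.Icc (0 : ℝ) (n * p), x / n + a ∈ Set.Icc a (a + p) := by
    intro x hx
    have h1 := div_nonneg hx.1 hn0.le
    have h2 : x / n ≤ p := by
      rw [div_le_iff₀ hn0]; linarith [hx.2]
    exact ⟨by linarith, by linarith⟩
  have i2 : ∀ x ∈ Set.Icc (n * p) π, x / n + a ∈ Set.Icc (a + p) (a + π / n) := by
    intro x hx
    have h1 : p ≤ x / n := by
      rw [le_div_iff₀ hn0]; linarith [hx.1]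
    have h2 : x / n ≤ π / n := div_le_div_of_nonneg_right hx.2 hn0.le
    exact ⟨by linarith, by linarith⟩
  have hg : Pool.Agent.H51.DG.GlobalSmooth (fun x => ω₀ (x / n + a)) := by
    refine Pool.Agent.H90.DE.oneSign _ (n * p)
      (smooth.comp ((contDiff_id.div_const _).add contDiff_const)) ?_ ?_ (by positivity) ?_ ?_
    · intro x
      show ω₀ ((x + 2 * π) / n + a) = ω₀ (x / n + a)
      rw [show (x + 2 * π) / n + a = x / n + a + 2 * π / n by ring, periodic]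
    · intro x
      show ω₀ (-x / n + a) = -ω₀ (x / n + a)
      rw [show -x / n + a = a - x / n by ring, odd, add_comm (x / n) a]
    · have h1 := mul_le_mul_of_nonneg_left hp1 hn0.le
      have h2 : (n : ℝ) * (π / n) = π := by field_simp
      linarith
    · rcases sgn with h | h
      · exact Or.inl ⟨fun x hx => h.1 _ (i1 x hx), fun x hx => h.2 _ (i2 x hx)⟩
      · exact Or.inr ⟨fun x hx => h.1 _ (i1 x hx), fun x hx => h.2 _ (i2 x hx)⟩
  have h1 := Pool.Agent.H45.DY.kfold _ hg n hn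
  have h2 : (fun x : ℝ => ω₀ ((n : ℝ) * x / n + a)) = fun x => ω₀ (x + a) := by
    funext x
    rw [mul_div_cancel_left₀ x hn1]
  rw [h2] at h1
  exact Pool.Agent.H90.DC.translate ω₀ a h1

end Pool.Agent.Results.MP_64e98b_an.OddFourSignChanges
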